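import Mathlib

/-!
# Choice of a sweep of a cycle

Pure combinatorics on a cycle `ZMod N` which is cut into segments by a set `V`.
-/

open Finset

namespace Pool.Agent.Helper50.UK

namespace Sel

variable {N : ℕ} [NeZero N]

/-- the number of elements of `V` with value at most `x` -/
def cnt (V : Finset (ZMod N)) (x : ℕ) : ℕ := (V.filter fun p => p.val ≤ x).card

/-- the index of the segment which contains `z` -/
def seg (V : Finset (ZMod N)) (z : ZMod N) : ZMod V.card := (cnt V z.val : ℕ)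

theorem val_pred {z : ZMod N} (hz : z ≠ 0) : (z - 1).val + 1 = z.val := by
  have h1 : 0 < z.val := by
    rw [Nat.pos_iff_ne_zero]
    intro h
    exact hz ((ZMod.val_eq_zero z).1 h)
  have hN : 1 < N := lt_of_le_of_lt h1 (ZMod.val_lt z)
  have : Fact (1 < N) := ⟨hN⟩
  have h2 : (1 : ZMod N).val = 1 := ZMod.val_one N
  rw [ZMod.val_sub (by rw [h2]; exact h1), h2]
  omega

theorem val_neg_one' : ((0 : ZMod N) - 1).val + 1 = N := by
  obtain ⟨M, rfl⟩ : ∃ M, N = M + 1 := ⟨N - 1, by have := NeZero.pos N; omega⟩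
  rw [zero_sub, ZMod.val_neg_one]

theorem cnt_le (V : Finset (ZMod N)) (x : ℕ) : cnt V x ≤ V.card := card_filter_le _ _

theorem cnt_mono (V : Finset (ZMod N)) {x y : ℕ} (h : x ≤ y) : cnt V x ≤ cnt V y := by
  refine card_le_card fun p hp => ?_
  rw [mem_filter] at hp ⊢
  exact ⟨hp.1, hp.2.trans h⟩

theorem cnt_top (V : Finset (ZMod N)) : cnt V ((0 : ZMod N) - 1).val = V.card := by
  unfold cnt
  rw [filter_true_of_mem]
  intro p _
  have h1 := ZMod.val_lt p
  have h2 := val_neg_one' (N := N)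
  omega

theorem cnt_of_not_mem {V : Finset (ZMod N)} {z : ZMod N} (hz : z ∉ V) (h0 : z ≠ 0) :
    cnt V z.val = cnt V (z - 1).val := by
  unfold cnt
  congr 1
  ext p
  simp only [mem_filter, and_congr_right_iff]
  intro hp
  have h1 := val_pred h0
  have h2 : p.val ≠ z.val := fun h => hz (by rwa [← ZMod.val_injective N h])
  omega

theorem cnt_of_mem {V : Finset (ZMod N)} {z : ZMod N} (hz : z ∈ V) (h0 : z ≠ 0) :
    cnt V z.val = cnt V (z - 1).val + 1 := by
  unfold cnt
  have h1 := val_pred h0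
  rw [← card_insert_of_notMem (a := z) (by simp; intro; omega)]
  congr 1
  ext p
  simp only [mem_filter, mem_insert]
  constructor
  · rintro ⟨hp, h⟩
    rcases eq_or_ne p z with rfl | hne
    · exact Or.inl rfl
    · have h2 : p.val ≠ z.val := fun h => hne (ZMod.val_injective N h)
      exact Or.inr ⟨hp, by omega⟩
  · rintro (rfl | ⟨hp, h⟩)
    · exact ⟨hz, le_rfl⟩
    · exact ⟨hp, by omega⟩

theorem seg_of_not_mem {V : Finset (ZMod N)} {z : ZMod N} (hz : z ∉ V) :
    seg V z = seg V (z - 1) := by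
  rcases eq_or_ne z 0 with rfl | h0
  · unfold seg
    rw [cnt_top]
    have : cnt V (0 : ZMod N).val = 0 := by
      unfold cnt
      rw [card_eq_zero, filter_eq_empty_iff]
      intro p hp h
      rw [ZMod.val_zero, Nat.le_zero, ZMod.val_eq_zero] at h
      exact hz (h ▸ hp)
    rw [this]
    simp
  · unfold seg
    rw [cnt_of_not_mem hz h0]

theorem seg_of_mem {V : Finset (ZMod N)} {z : ZMod N} (hz : z ∈ V) :
    seg V z = seg V (z - 1) + 1 := by
  rcases eq_or_ne z 0 with rfl | h0
  · unfold seg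
    rw [cnt_top]
    have : cnt V (0 : ZMod N).val = 1 := by
      unfold cnt
      rw [card_eq_one]
      refine ⟨0, ?_⟩
      ext p
      simp only [mem_filter, mem_singleton, ZMod.val_zero, Nat.le_zero, ZMod.val_eq_zero]
      constructor
      · exact fun h => h.2
      · rintro rfl; exact ⟨hz, rfl⟩
    rw [this]
    simp
  · unfold seg
    rw [cnt_of_mem hz h0]
    push_cast
    ring

theorem walk {V : Finset (ZMod N)} {R : Setoid (ZMod N)} (h1 : ∀ z, z ∉ V → R z (z - 1))
    (x y : ℕ) (hxy : x ≤ y) (hy : y < N) (h : ∀ p ∈ V, x < p.val → ¬ p.val ≤ y) :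
    R (x : ZMod N) (y : ZMod N) := by
  induction y, hxy using Nat.le_induction with
  | base => exact R.refl' _
  | succ y hxy ih =>
    have h2 := ih (by omega) fun p hp hx hy' => h p hp hx (by omega)
    have h3 : ((y + 1 : ℕ) : ZMod N) ∉ V := by
      intro hm
      have hv : ((y + 1 : ℕ) : ZMod N).val = y + 1 := ZMod.val_cast_of_lt hy
      exact h _ hm (by omega) (by omega)
    have h4 := h1 _ h3
    have h5 : ((y + 1 : ℕ) : ZMod N) - 1 = y := by push_cast; ring
    rw [h5] at h4
    exact R.trans' h2 (R.symm' h4)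

theorem rel_of_seg {V : Finset (ZMod N)} {R : Setoid (ZMod N)}
    (h1 : ∀ z, z ∉ V → R z (z - 1)) (hV : V.Nonempty) {z z' : ZMod N}
    (h : seg V z = seg V z') : R z z' := by
  wlog hle : z.val ≤ z'.val generalizing z z'
  · exact R.symm' (this h.symm (by omega))
  have hm : 0 < V.card := hV.card_pos
  have hz : ((z.val : ℕ) : ZMod N) = z := ZMod.natCast_zmod_val z
  have hz' : ((z'.val : ℕ) : ZMod N) = z' := ZMod.natCast_zmod_val z'
  have hc : cnt V z'.val = cnt V z.val + (V.filter fun p => z.val < p.val ∧ p.val ≤ z'.val).card := by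
    unfold cnt
    rw [← card_union_of_disjoint]
    · congr 1
      ext p
      simp only [mem_filter, mem_union]
      constructor
      · rintro ⟨hp, h⟩
        rcases le_or_gt p.val z.val with h' | h'
        · exact Or.inl ⟨hp, h'⟩
        · exact Or.inr ⟨hp, h', h⟩
      · rintro (⟨hp, h⟩ | ⟨hp, _, h⟩)
        · exact ⟨hp, h.trans hle⟩
        · exact ⟨hp, h⟩
    · rw [disjoint_left]
      intro p hp hp'
      rw [mem_filter] at hp hp'
      omega
  have hd : (V.card : ℕ) ∣ (V.filter fun p => z.val < p.val ∧ p.val ≤ z'.val).card := by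
    rw [← CharP.cast_eq_zero_iff (ZMod V.card)]
    have h2 : ((cnt V z'.val : ℕ) : ZMod V.card) = (cnt V z.val : ℕ) := h.symm
    rw [hc] at h2
    push_cast at h2
    simpa using h2
  have hle2 : (V.filter fun p => z.val < p.val ∧ p.val ≤ z'.val).card ≤ V.card :=
    card_filter_le _ _
  rcases Nat.eq_zero_or_pos (V.filter fun p => z.val < p.val ∧ p.val ≤ z'.val).card with h0 | h0
  · rw [← hz, ← hz']
    refine walk h1 _ _ hle (ZMod.val_lt z') fun p hp hx hy => ?_
    rw [card_eq_zero, filter_eq_empty_iff] at h0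
    exact h0 hp ⟨hx, hy⟩
  · have h3 : (V.filter fun p => z.val < p.val ∧ p.val ≤ z'.val).card = V.card :=
      le_antisymm hle2 (Nat.le_of_dvd h0 hd)
    have h4 : ∀ p ∈ V, z.val < p.val ∧ p.val ≤ z'.val := by
      have h5 : V.filter (fun p => z.val < p.val ∧ p.val ≤ z'.val) = V :=
        eq_of_subset_of_card_le (filter_subset _ _) h3.ge
      intro p hp
      rw [← h5, mem_filter] at hp
      exact hp.2
    have hN := NeZero.pos N
    have e1 : R ((z'.val : ℕ) : ZMod N) ((N - 1 : ℕ) : ZMod N) :=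
      walk h1 _ _ (by have := ZMod.val_lt z'; omega) (by omega) fun p hp hx hy => by
        have := h4 p hp; omega
    have e2 : R ((0 : ℕ) : ZMod N) ((z.val : ℕ) : ZMod N) :=
      walk h1 _ _ (Nat.zero_le _) (ZMod.val_lt z) fun p hp hx hy => by
        have := h4 p hp; omega
    have e3 : (0 : ZMod N) ∉ V := fun h0 => by
      have := h4 _ h0
      simp at this
    have e4 := h1 _ e3
    have e5 : ((N - 1 : ℕ) : ZMod N) = 0 - 1 := by
      rw [Nat.cast_sub (by omega)]; simp
    rw [e5, hz'] at e1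
    rw [hz, Nat.cast_zero] at e2
    exact R.trans' (R.symm' e2) (R.trans' e4 (R.symm' e1))

theorem exists_start {V : Finset (ZMod N)} (hV : V.Nonempty) (s : ZMod V.card) :
    ∃ p ∈ V, seg V p = s := by
  have hm : 0 < V.card := hV.card_pos
  have : NeZero V.card := ⟨hm.ne'⟩
  have hlt : ∀ p ∈ V, ∀ p' ∈ V, p.val < p'.val → cnt V p.val < cnt V p'.val := by
    intro p hp p' hp' h
    refine card_lt_card ?_
    rw [ssubset_iff_of_subset]
    · exact ⟨p', by simp [hp'], by simp [hp', h]⟩
    · intro q hq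
      rw [mem_filter] at hq ⊢
      exact ⟨hq.1, by omega⟩
  have hpos : ∀ p ∈ V, 0 < cnt V p.val := by
    intro p hp
    exact card_pos.2 ⟨p, by simp [hp]⟩
  have hinj : ∀ p ∈ V, ∀ p' ∈ V, seg V p = seg V p' → p = p' := by
    intro p hp p' hp' h
    by_contra hne
    have hne' : p.val ≠ p'.val := fun h => hne (ZMod.val_injective N h)
    have key : ∀ a ∈ V, ∀ b ∈ V, a.val < b.val → seg V a ≠ seg V b := by
      intro a ha b hb hab hs
      have h1 := hlt a ha b hb hab
      have h2 := hpos a ha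
      have h3 := cnt_le V b.val
      have h4 : (V.card : ℕ) ∣ cnt V b.val - cnt V a.val := by
        rw [← CharP.cast_eq_zero_iff (ZMod V.card), Nat.cast_sub h1.le, sub_eq_zero]
        exact hs.symm
      have h5 := Nat.le_of_dvd (by omega) h4
      omega
    rcases lt_or_gt_of_ne hne' with h' | h'
    · exact key p hp p' hp' h' h
    · exact key p' hp' p hp h' h.symm
  obtain ⟨p, hp, h⟩ := surj_on_of_inj_on_of_card_le (s := V) (t := (univ : Finset (ZMod V.card)))
    (fun p _ => seg V p) (fun _ _ => mem_univ _) (fun a b ha hb h => hinj a ha b hb h)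
    (by rw [card_univ, ZMod.card]) s (mem_univ s)
  exact ⟨p, hp, h.symm⟩

/-- the class of `e` is met at time `t` by one of the two walkers which start at the centre
`(c, d)` -/
def Met (V : Finset (ZMod N)) (R : Setoid (ZMod N)) (c : ZMod V.card) (d : ℕ) (e : ZMod N)
    (t : ℕ) : Prop :=
  ∃ z, R z e ∧ (seg V z = c + d + t ∨ seg V z = c - t)

theorem exists_met {V : Finset (ZMod N)} (hV : V.Nonempty) (R : Setoid (ZMod N))
    (c : ZMod V.card) (d : ℕ) (e : ZMod N) : ∃ t, Met V R c d e t := by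
  have : NeZero V.card := ⟨hV.card_pos.ne'⟩
  refine ⟨(seg V e - (c + d)).val, e, R.refl' e, Or.inl ?_⟩
  rw [ZMod.natCast_zmod_val]
  ring

open Classical in
/-- the first time at which the class of `e` is met -/
noncomputable def tau {V : Finset (ZMod N)} (hV : V.Nonempty) (R : Setoid (ZMod N))
    (c : ZMod V.card) (d : ℕ) (e : ZMod N) : ℕ := Nat.find (exists_met hV R c d e)

section

variable {V : Finset (ZMod N)} (hV : V.Nonempty) {R : Setoid (ZMod N)} {c : ZMod V.card} {d : ℕ}

theorem met_tau (e : ZMod N) : Met V R c d e (tau hV R c d e) := by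
  classical
  exact Nat.find_spec (exists_met hV R c d e)

theorem tau_le {e : ZMod N} {t : ℕ} (h : Met V R c d e t) : tau hV R c d e ≤ t := by
  classical
  exact Nat.find_min' (exists_met hV R c d e) h

theorem tau_congr {e e' : ZMod N} (h : R e e') : tau hV R c d e = tau hV R c d e' := by
  apply le_antisymm
  · obtain ⟨z, h1, h2⟩ := met_tau hV (R := R) (c := c) (d := d) e'
    exact tau_le hV ⟨z, R.trans' h1 (R.symm' h), h2⟩
  · obtain ⟨z, h1, h2⟩ := met_tau hV (R := R) (c := c) (d := d) e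
    exact tau_le hV ⟨z, R.trans' h1 h, h2⟩

theorem tau_step (h1 : ∀ z, z ∉ V → R z (z - 1)) (e : ZMod N) (he : 1 ≤ tau hV R c d e) :
    ∃ p ∈ V, (R p e ∧ tau hV R c d (p - 1) < tau hV R c d e) ∨
      (R (p - 1) e ∧ tau hV R c d p < tau hV R c d e) := by
  obtain ⟨z, hz, hs⟩ := met_tau hV (R := R) (c := c) (d := d) e
  obtain ⟨t, ht⟩ : ∃ t, tau hV R c d e = t + 1 := ⟨tau hV R c d e - 1, by omega⟩
  rw [ht] at hs ⊢
  rcases hs with hs | hs
  · obtain ⟨p, hp, hps⟩ := exists_start hV (seg V z)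
    refine ⟨p, hp, Or.inl ⟨R.trans' (rel_of_seg h1 hV hps) hz, ?_⟩⟩
    refine Nat.lt_succ_of_le (tau_le hV ⟨p - 1, R.refl' _, Or.inl ?_⟩)
    have h2 := seg_of_mem hp
    rw [hps, hs] at h2
    have h3 : seg V (p - 1) = c + d + (t + 1 : ℕ) - 1 := by rw [h2]; ring
    rw [h3]; push_cast; ring
  · obtain ⟨p, hp, hps⟩ := exists_start hV (seg V z + 1)
    have h2 := seg_of_mem hp
    rw [hps] at h2
    have h3 : seg V (p - 1) = seg V z := by
      have := add_right_cancel h2
      exact this.symm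
    refine ⟨p, hp, Or.inr ⟨R.trans' (rel_of_seg h1 hV h3) hz, ?_⟩⟩
    refine Nat.lt_succ_of_le (tau_le hV ⟨p, R.refl' _, Or.inr ?_⟩)
    rw [hps, hs]; push_cast; ring

theorem tau_zero (h1 : ∀ z, z ∉ V → R z (z - 1)) (hd : d < 2) (e e' : ZMod N)
    (he : tau hV R c d e = 0) (he' : tau hV R c d e' = 0) (hee : ¬ R e e') :
    ∃ p ∈ V, (R (p - 1) e ∧ R p e') ∨ (R (p - 1) e' ∧ R p e) := by
  obtain ⟨z, hz, hs⟩ := met_tau hV (R := R) (c := c) (d := d) e
  obtain ⟨z', hz', hs'⟩ := met_tau hV (R := R) (c := c) (d := d) e'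
  rw [he] at hs
  rw [he'] at hs'
  have hne : seg V z ≠ seg V z' := fun h =>
    hee (R.trans' (R.symm' hz) (R.trans' (rel_of_seg h1 hV h) hz'))
  have hd1 : d = 1 := by
    by_contra h
    have : d = 0 := by omega
    subst this
    simp only [Nat.cast_zero, add_zero, sub_zero, or_self] at hs hs'
    exact hne (hs.trans hs'.symm)
  subst hd1
  simp only [Nat.cast_zero, add_zero, sub_zero, Nat.cast_one] at hs hs'
  obtain ⟨p, hp, hps⟩ := exists_start hV (c + 1)
  have h2 := seg_of_mem hp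
  rw [hps] at h2
  have h3 : seg V (p - 1) = c := (add_right_cancel h2).symm
  refine ⟨p, hp, ?_⟩
  rcases hs with hs | hs <;> rcases hs' with hs' | hs'
  · exact absurd (hs.trans hs'.symm) hne
  · exact Or.inr ⟨R.trans' (rel_of_seg h1 hV (h3.trans hs'.symm)) hz',
      R.trans' (rel_of_seg h1 hV (hps.trans hs.symm)) hz⟩
  · exact Or.inl ⟨R.trans' (rel_of_seg h1 hV (h3.trans hs.symm)) hz,
      R.trans' (rel_of_seg h1 hV (hps.trans hs'.symm)) hz'⟩
  · exact absurd (hs.trans hs'.symm) hne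

theorem tau_three (h1 : ∀ z, z ∉ V → R z (z - 1)) (e e' e'' : ZMod N)
    (he : tau hV R c d e = tau hV R c d e') (he' : tau hV R c d e = tau hV R c d e'') :
    R e e' ∨ R e e'' ∨ R e' e'' := by
  obtain ⟨z, hz, hs⟩ := met_tau hV (R := R) (c := c) (d := d) e
  obtain ⟨z', hz', hs'⟩ := met_tau hV (R := R) (c := c) (d := d) e'
  obtain ⟨z'', hz'', hs''⟩ := met_tau hV (R := R) (c := c) (d := d) e''
  rw [← he] at hs'
  rw [← he'] at hs''
  have key : ∀ {a b x y : ZMod N}, R a x → R b y → seg V a = seg V b → R x y :=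
    fun ha hb h => R.trans' (R.symm' ha) (R.trans' (rel_of_seg h1 hV h) hb)
  rcases hs with hs | hs <;> rcases hs' with hs' | hs' <;> rcases hs'' with hs'' | hs''
  · exact Or.inl (key hz hz' (hs.trans hs'.symm))
  · exact Or.inl (key hz hz' (hs.trans hs'.symm))
  · exact Or.inr (Or.inl (key hz hz'' (hs.trans hs''.symm)))
  · exact Or.inr (Or.inr (key hz' hz'' (hs'.trans hs''.symm)))
  · exact Or.inr (Or.inr (key hz' hz'' (hs'.trans hs''.symm)))
  · exact Or.inr (Or.inl (key hz hz'' (hs.trans hs''.symm)))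
  · exact Or.inl (key hz hz' (hs.trans hs'.symm))
  · exact Or.inl (key hz hz' (hs.trans hs'.symm))

end

/-- Two classes are met at the same time from one centre, the first by the backward walker. -/
theorem exists_centre {V : Finset (ZMod N)} (hV : V.Nonempty) {R : Setoid (ZMod N)}
    (h1 : ∀ z, z ∉ V → R z (z - 1)) (a b : ZMod N) (hab : ¬ R a b) :
    ∃ c : ZMod V.card, ∃ d : Fin 2, tau hV R c d a = tau hV R c d b ∧
      ∃ z, R z a ∧ seg V z = c - (tau hV R c d a : ℕ) := by
  classical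
  have : NeZero V.card := ⟨hV.card_pos.ne'⟩
  obtain ⟨⟨za, zb⟩, hm, hmin⟩ := exists_min_image
    ((univ : Finset (ZMod N × ZMod N)).filter fun q => R q.1 a ∧ R q.2 b)
    (fun q => (seg V q.2 - seg V q.1).val) ⟨(a, b), by simp⟩
  simp only [mem_filter, mem_univ, true_and] at hm hmin
  obtain ⟨D, hD⟩ : ∃ D, D = (seg V zb - seg V za).val := ⟨_, rfl⟩
  rw [← hD] at hmin
  have hmin' : ∀ (x : ℕ) (z z' : ZMod N), R z a → R z' b → seg V z' - seg V z = (x : ℕ) →
      D ≤ x := by
    intro x z z' hz hz' hx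
    refine (hmin (z, z') ⟨hz, hz'⟩).trans ?_
    show (seg V z' - seg V z).val ≤ x
    rw [hx, ZMod.val_natCast]
    exact Nat.mod_le _ _
  have hcast : seg V zb = seg V za + (D : ℕ) := by
    rw [hD, ZMod.natCast_zmod_val]; ring
  have hD0 : 0 < D := by
    rw [Nat.pos_iff_ne_zero]
    intro h
    rw [h, Nat.cast_zero, add_zero] at hcast
    exact hab (R.trans' (R.symm' hm.1) (R.trans' (rel_of_seg h1 hV hcast.symm) hm.2))
  obtain ⟨t, ht⟩ : ∃ t, t = D / 2 := ⟨_, rfl⟩
  have hlt : D % 2 < 2 := Nat.mod_lt _ (by norm_num)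
  obtain ⟨d, hd⟩ : ∃ d, d = D % 2 := ⟨_, rfl⟩
  have hDt : D = 2 * t + d := by omega
  have ea : tau hV R (seg V za + (t : ℕ)) d a = t := by
    apply le_antisymm
    · exact tau_le hV ⟨za, hm.1, Or.inr (by ring)⟩
    · by_contra hcon
      push Not at hcon
      obtain ⟨z, hz, hs⟩ := met_tau hV (R := R) (c := seg V za + (t : ℕ)) (d := d) a
      obtain ⟨t', ht'⟩ : ∃ t', t' = tau hV R (seg V za + (t : ℕ)) d a := ⟨_, rfl⟩
      rw [← ht'] at hs hcon
      rcases hs with hs | hs
      · have := hmin' (t - t') z zb hz hm.2 (by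
          rw [hs, hcast, hDt, Nat.cast_sub hcon.le]; push_cast; ring)
        omega
      · have := hmin' (t + d + t') z zb hz hm.2 (by
          rw [hs, hcast, hDt]; push_cast; ring)
        omega
  have eb : tau hV R (seg V za + (t : ℕ)) d b = t := by
    apply le_antisymm
    · exact tau_le hV ⟨zb, hm.2, Or.inl (by rw [hcast, hDt]; push_cast; ring)⟩
    · by_contra hcon
      push Not at hcon
      obtain ⟨z, hz, hs⟩ := met_tau hV (R := R) (c := seg V za + (t : ℕ)) (d := d) b
      obtain ⟨t', ht'⟩ : ∃ t', t' = tau hV R (seg V za + (t : ℕ)) d b := ⟨_, rfl⟩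
      rw [← ht'] at hs hcon
      rcases hs with hs | hs
      · have := hmin' (t + d + t') za z hm.1 hz (by
          rw [hs]; push_cast; ring)
        omega
      · have := hmin' (t - t') za z hm.1 hz (by
          rw [hs, Nat.cast_sub hcon.le]; ring)
        omega
  refine ⟨seg V za + (t : ℕ), ⟨d, by omega⟩, ?_, za, hm.1, ?_⟩
  · show tau hV R (seg V za + (t : ℕ)) d a = tau hV R (seg V za + (t : ℕ)) d b
    rw [ea, eb]
  · show seg V za = seg V za + (t : ℕ) - (tau hV R (seg V za + (t : ℕ)) d a : ℕ)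
    rw [ea]; ring

end Sel

open Sel in
theorem selection (N : ℕ) [NeZero N] (V : Finset (ZMod N)) (hV : V.Nonempty) (heven : Even V.card)
    (R : Setoid (ZMod N)) (h1 : ∀ z, z ∉ V → R z (z - 1)) (h2 : ∀ z ∈ V, ¬ R z (z - 1))
    (μ : ZMod N → ZMod N) (h3 : ∀ z, z ∉ V → ¬ R z (μ z)) :
    ∃ τ : ZMod N → ℕ,
      (∀ e e', R e e' → τ e = τ e') ∧
      (∀ e, 1 ≤ τ e → ∃ p ∈ V, (R p e ∧ τ (p - 1) < τ e) ∨ (R (p - 1) e ∧ τ p < τ e)) ∧
      (∀ e e', τ e = 0 → τ e' = 0 → ¬ R e e' →
        ∃ p ∈ V, (R (p - 1) e ∧ R p e') ∨ (R (p - 1) e' ∧ R p e)) ∧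
      (∀ e e' e'', τ e = τ e' → τ e = τ e'' → R e e' ∨ R e e'' ∨ R e' e'') ∧
      N - V.card ≤ V.card * (Finset.univ.filter fun q => q ∉ V ∧ τ q = τ (μ q)).card := by
  classical
  have : NeZero V.card := ⟨hV.card_pos.ne'⟩
  have hm : 0 < V.card := hV.card_pos
  -- the number of centres which are good for `q` is at least two
  have htwo : ∀ q, q ∉ V → 2 ≤ (univ.filter fun x : ZMod V.card × Fin 2 =>
      tau hV R x.1 x.2 q = tau hV R x.1 x.2 (μ q)).card := by
    intro q hq
    have hne := h3 q hq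
    obtain ⟨c, d, e1, z, hz, hs⟩ := exists_centre hV h1 q (μ q) hne
    obtain ⟨c', d', e1', z', hz', hs'⟩ := exists_centre hV h1 (μ q) q (fun h => hne (R.symm' h))
    have hcd : (c, d) ≠ (c', d') := by
      intro h
      rw [Prod.mk.injEq] at h
      obtain ⟨rfl, rfl⟩ := h
      rw [← e1] at hs'
      exact hne (R.trans' (R.symm' hz) (R.trans' (rel_of_seg h1 hV (hs.trans hs'.symm)) hz'))
    refine le_trans (le_of_eq (card_pair hcd).symm) (Finset.card_le_card ?_)
    intro x hx
    rw [mem_insert, mem_singleton] at hx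
    rcases hx with rfl | rfl
    · simp [e1]
    · simp [e1']
  have hsum : 2 * (N - V.card) ≤ ∑ x : ZMod V.card × Fin 2,
      (univ.filter fun q => q ∉ V ∧ tau hV R x.1 x.2 q = tau hV R x.1 x.2 (μ q)).card := by
    have e1 : ∑ x : ZMod V.card × Fin 2,
        (univ.filter fun q => q ∉ V ∧ tau hV R x.1 x.2 q = tau hV R x.1 x.2 (μ q)).card =
        ∑ q ∈ (univ : Finset (ZMod N)).filter (fun q => q ∉ V),
          (univ.filter fun x : ZMod V.card × Fin 2 =>
            tau hV R x.1 x.2 q = tau hV R x.1 x.2 (μ q)).card := by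
      simp only [card_eq_sum_ones, sum_filter]
      rw [sum_comm]
      refine sum_congr rfl fun q _ => ?_
      by_cases hq : q ∈ V
      · simp [hq]
      · simp [hq]
    rw [e1]
    have e2 : ((univ : Finset (ZMod N)).filter (fun q => q ∉ V)).card = N - V.card := by
      rw [filter_not, card_sdiff_of_subset (filter_subset _ _), card_univ, ZMod.card]
      congr 2
      ext q; simp
    rw [← e2, mul_comm, ← smul_eq_mul]
    refine card_nsmul_le_sum _ _ _ fun q hq => ?_
    rw [mem_filter] at hq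
    exact htwo q hq.2
  obtain ⟨x, hx⟩ : ∃ x : ZMod V.card × Fin 2, N - V.card ≤ V.card *
      (univ.filter fun q => q ∉ V ∧ tau hV R x.1 x.2 q = tau hV R x.1 x.2 (μ q)).card := by
    by_contra hcon
    push Not at hcon
    have h5 : ∑ x : ZMod V.card × Fin 2, V.card *
        (univ.filter fun q => q ∉ V ∧ tau hV R x.1 x.2 q = tau hV R x.1 x.2 (μ q)).card <
        ∑ _x : ZMod V.card × Fin 2, (N - V.card) := by
      refine sum_lt_sum_of_nonempty ⟨(0, 0), mem_univ _⟩ fun x _ => hcon x
    rw [← mul_sum, sum_const, smul_eq_mul, card_univ, Fintype.card_prod, ZMod.card,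
      Fintype.card_fin] at h5
    have h6 := Nat.mul_le_mul_left V.card hsum
    have h7 : V.card * (2 * (N - V.card)) = V.card * 2 * (N - V.card) := by ring
    omega
  refine ⟨fun e => tau hV R x.1 x.2 e, fun e e' h => tau_congr hV h,
    fun e he => tau_step hV h1 e he, fun e e' he he' hee => tau_zero hV h1 x.2.2 e e' he he' hee,
    fun e e' e'' he he' => tau_three hV h1 e e' e'' he he', ?_⟩
  convert hx using 4

end Pool.Agent.Helper50.UK
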